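import Pool.Agent.W254.LF.Stm2

/-!
Project LF (MP_5f2860_nt), part IRZ: `(X - t) Q - 1` is irreducible for all but finitely many `t`.
-/

set_option autoImplicit false

open Polynomial Filter Topology

namespace Pool.Agent.W327.LF

/-- far away the polynomial is large and its logarithmic derivative is small -/
theorem far {Q : ℂ[X]} {m : ℕ} (hm : Q.natDegree = m) (h0 : 0 < m) :
    ∃ B : ℝ, 0 ≤ B ∧ ∀ u : ℂ, B ≤ ‖u‖ → 2 * m + 2 ≤ ‖Q.eval u‖ ∧
      ‖Q.derivative.eval u‖ ≤ m * ‖Q.eval u‖ := by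
  have hdeg : 0 < Q.degree := by
    rw [← natDegree_pos_iff_degree_pos, hm]; exact h0
  have hQ0 : Q ≠ 0 := by
    rintro rfl; simp at hdeg
  have hid : Tendsto (fun u : ℂ => ‖u‖) (Bornology.cobounded ℂ) atTop := tendsto_norm_cobounded_atTop
  have h1 : ∀ᶠ u in Bornology.cobounded ℂ, (2 * m + 2 : ℝ) ≤ ‖Q.eval u‖ :=
    (Q.tendsto_norm_atTop hdeg hid).eventually_ge_atTop _
  have h2 : ∀ᶠ u in Bornology.cobounded ℂ, ∀ r ∈ Q.roots.toFinset, (1 : ℝ) ≤ ‖u - r‖ := by
    rw [Filter.eventually_all_finset]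
    intro r _
    have h3 : Tendsto (fun u : ℂ => ‖u‖ + (-‖r‖)) (Bornology.cobounded ℂ) atTop :=
      tendsto_atTop_add_const_right _ _ hid
    filter_upwards [h3.eventually_ge_atTop 1] with u hu
    have := norm_sub_norm_le u r
    linarith
  obtain ⟨B, -, hB⟩ := (Filter.hasBasis_cobounded_norm (E := ℂ)).eventually_iff.1 (h1.and h2)
  refine ⟨max B 0, le_max_right _ _, fun u hu => ?_⟩
  obtain ⟨h3, h4⟩ := hB (show B ≤ ‖u‖ from (le_max_left _ _).trans hu)
  refine ⟨h3, ?_⟩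
  have hne : Q.eval u ≠ 0 := by
    intro h
    rw [h, norm_zero] at h3
    have : (0 : ℝ) ≤ m := Nat.cast_nonneg m
    linarith
  have h5 := (IsAlgClosed.splits Q).eval_derivative_div_eval_of_ne_zero hne
  have h6 : ‖Q.derivative.eval u / Q.eval u‖ ≤ m := by
    rw [h5]
    refine (norm_multiset_sum_le _).trans ?_
    rw [Multiset.map_map]
    have h7 : (Q.roots.map (norm ∘ fun z => 1 / (u - z))).sum ≤ (Q.roots.map (fun _ => (1 : ℝ))).sum := by
      apply Multiset.sum_map_le_sum_map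
      intro z hz
      have h8 := h4 z (Multiset.mem_toFinset.2 hz)
      simp only [Function.comp_apply, norm_div, norm_one]
      rw [div_le_one (by linarith)]
      exact h8
    refine h7.trans ?_
    rw [Multiset.map_const', Multiset.sum_replicate, nsmul_eq_mul, mul_one]
    have h8 := Q.card_roots'
    rw [hm] at h8
    exact_mod_cast h8
  rw [norm_div, div_le_iff₀ (norm_pos_iff.2 hne)] at h6
  exact h6

/-- at most one root of `(X - t) Q - 1` is far away -/
theorem unique {Q : ℂ[X]} {m : ℕ} {B : ℝ}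
    (hB : ∀ u : ℂ, B ≤ ‖u‖ → 2 * m + 2 ≤ ‖Q.eval u‖ ∧ ‖Q.derivative.eval u‖ ≤ m * ‖Q.eval u‖)
    {t z w : ℂ} (hz : B + 1 ≤ ‖z‖) (hw : B + 1 ≤ ‖w‖) (h1 : (z - t) * Q.eval z = 1)
    (h2 : (w - t) * Q.eval w = 1) : z = w := by
  have hm0 : (0 : ℝ) ≤ m := Nat.cast_nonneg m
  have hball : ∀ v : ℂ, B + 1 ≤ ‖v‖ → (v - t) * Q.eval v = 1 → v ∈ Metric.closedBall t (1 / 2) := by
    intro v hv h
    rw [Metric.mem_closedBall, dist_eq_norm]
    have h3 := (hB v (by linarith)).1
    have h4 : ‖v - t‖ * ‖Q.eval v‖ = 1 := by rw [← norm_mul, h, norm_one]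
    have h5 := norm_nonneg (v - t)
    nlinarith
  have hzb := hball z hz h1
  have hwb := hball w hw h2
  have hfar : ∀ u ∈ Metric.closedBall t (1 / 2 : ℝ), B ≤ ‖u‖ := by
    intro u hu
    rw [Metric.mem_closedBall, dist_eq_norm] at hu hzb
    have h3 : ‖z - u‖ ≤ 1 := by
      have h4 : z - u = (z - t) - (u - t) := by ring
      rw [h4]
      exact (norm_sub_le _ _).trans (by linarith)
    have h5 := norm_sub_norm_le z u
    linarith
  have hne : ∀ u ∈ Metric.closedBall t (1 / 2 : ℝ), Q.eval u ≠ 0 := by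
    intro u hu h
    have h3 := (hB u (hfar u hu)).1
    rw [h, norm_zero] at h3
    linarith
  have hder : ∀ u ∈ Metric.closedBall t (1 / 2 : ℝ), HasDerivWithinAt (fun v : ℂ => (Q.eval v)⁻¹)
      (-Q.derivative.eval u / Q.eval u ^ 2) (Metric.closedBall t (1 / 2)) u := fun u hu =>
    ((Q.hasDerivAt u).fun_inv (hne u hu)).hasDerivWithinAt
  have hbd : ∀ u ∈ Metric.closedBall t (1 / 2 : ℝ), ‖-Q.derivative.eval u / Q.eval u ^ 2‖ ≤ 1 / 2 := by
    intro u hu
    obtain ⟨h3, h4⟩ := hB u (hfar u hu)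
    have h5 := norm_pos_iff.2 (hne u hu)
    rw [norm_div, norm_neg, norm_pow, div_le_iff₀ (by positivity)]
    nlinarith
  have hmv := (convex_closedBall t (1 / 2 : ℝ)).norm_image_sub_le_of_norm_hasDerivWithin_le hder hbd
    hwb hzb
  have h3 : ∀ v : ℂ, (v - t) * Q.eval v = 1 → (Q.eval v)⁻¹ = v - t := by
    intro v h
    exact (eq_inv_of_mul_eq_one_left h).symm
  rw [h3 z h1, h3 w h2] at hmv
  have h4 : z - t - (w - t) = z - w := by ring
  rw [h4] at hmv
  have h5 : ‖z - w‖ = 0 := by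
    have := norm_nonneg (z - w)
    linarith
  exact sub_eq_zero.1 (norm_eq_zero.1 h5)

/-- monic integral polynomials with bounded roots -/
theorem finite_monic (d : ℕ) (B : ℝ) :
    {g : ℤ[X] | g.Monic ∧ g.natDegree ≤ d ∧
      ∀ z : ℂ, (g.map (Int.castRingHom ℂ)).eval z = 0 → ‖z‖ ≤ B}.Finite := by
  obtain ⟨C, hC⟩ : ∃ C : ℝ, C = max B 1 ^ d * d.choose (d / 2) := ⟨_, rfl⟩
  have hinj : Set.InjOn (fun g : ℤ[X] => fun i : Fin (d + 1) => g.coeff i)
      {g : ℤ[X] | g.Monic ∧ g.natDegree ≤ d ∧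
        ∀ z : ℂ, (g.map (Int.castRingHom ℂ)).eval z = 0 → ‖z‖ ≤ B} := by
    intro g hg h hh he
    ext i
    by_cases hi : i < d + 1
    · exact congrFun he ⟨i, hi⟩
    · rw [coeff_eq_zero_of_natDegree_lt (by have := hg.2.1; omega),
        coeff_eq_zero_of_natDegree_lt (by have := hh.2.1; omega)]
  refine Set.Finite.of_finite_image ?_ hinj
  refine (Set.Finite.pi' (t := fun _ : Fin (d + 1) => Set.Icc (-⌈C⌉) ⌈C⌉)
    fun _ => Set.finite_Icc _ _).subset ?_
  rintro _ ⟨g, ⟨hg1, hg2, hg3⟩, rfl⟩ i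
  have hm : (g.map (Int.castRingHom ℚ)).Monic := hg1.map _
  have hmap : (g.map (Int.castRingHom ℚ)).map (algebraMap ℚ ℂ) = g.map (Int.castRingHom ℂ) := by
    rw [Polynomial.map_map]
    congr 1
  have h1 := coeff_bdd_of_roots_le (d := d) (B := B) (algebraMap ℚ ℂ) hm
    (IsAlgClosed.splits _) ((natDegree_map_le).trans hg2) (by
      intro z hz
      rw [hmap] at hz
      exact hg3 z (isRoot_of_mem_roots hz)) (i : ℕ)
  rw [hmap, coeff_map, ← hC] at h1
  have h2 : ‖(Int.castRingHom ℂ) (g.coeff i)‖ = ((|g.coeff i| : ℤ) : ℝ) := by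
    rw [eq_intCast, Complex.norm_intCast, Int.cast_abs]
  rw [h2] at h1
  have h3 : |g.coeff i| ≤ ⌈C⌉ := by
    have h4 : ((|g.coeff i| : ℤ) : ℝ) ≤ (⌈C⌉ : ℝ) := h1.trans (Int.le_ceil C)
    exact_mod_cast h4
  exact abs_le.1 h3

/-- the family -/
noncomputable def Ft (Q : ℤ[X]) (t : ℤ) : ℤ[X] := (X - C t) * Q - 1

theorem Ft_eval (Q : ℤ[X]) (t : ℤ) (z : ℂ) : ((Ft Q t).map (Int.castRingHom ℂ)).eval z =
    (z - t) * (Q.map (Int.castRingHom ℂ)).eval z - 1 := by
  unfold Ft
  simp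

theorem Ft_deg {Q : ℤ[X]} (hQ : Q.Monic) (t : ℤ) :
    (Ft Q t).Monic ∧ (Ft Q t).natDegree = Q.natDegree + 1 := by
  have h1 : ((X - C t) * Q).Monic := (monic_X_sub_C t).mul hQ
  have h2 : ((X - C t) * Q).natDegree = Q.natDegree + 1 := by
    rw [(monic_X_sub_C t).natDegree_mul hQ, natDegree_X_sub_C, add_comm]
  have h3 : (1 : ℤ[X]).degree < ((X - C t) * Q).degree := by
    rw [degree_one, degree_eq_natDegree h1.ne_zero, h2]
    exact_mod_cast Nat.succ_pos _
  refine ⟨?_, ?_⟩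
  · unfold Ft
    exact h1.sub_of_left h3
  · unfold Ft
    rw [← h2]
    exact natDegree_eq_of_degree_eq (degree_sub_eq_left_of_degree_lt h3)

theorem t_IRZ : Pool.Agent.W254.LF.S_IRZ := by
  intro Q hQ
  obtain ⟨m, hm⟩ : ∃ m, m = Q.natDegree := ⟨_, rfl⟩
  -- reducible members have monic factors
  have hred : ∀ t : ℤ, ¬ Irreducible (((X - C t) * Q - 1 : ℤ[X]).map (Int.castRingHom ℚ)) →
      ∃ f g : ℤ[X], f.Monic ∧ g.Monic ∧ f * g = Ft Q t ∧ f.natDegree ≠ 0 ∧ g.natDegree ≠ 0 := by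
    intro t ht
    obtain ⟨h1, h2⟩ := Ft_deg hQ t
    have h3 : ¬ Irreducible (Ft Q t) := by
      intro h
      apply ht
      exact (h1.irreducible_iff_irreducible_map_fraction_map (K := ℚ)).1 h
    rw [h1.irreducible_iff_natDegree] at h3
    have h4 : Ft Q t ≠ 1 := by
      intro h
      rw [h, natDegree_one] at h2
      omega
    by_contra hcon
    apply h3
    refine ⟨h4, fun f g hf hg hfg => ?_⟩
    by_contra h5
    rw [not_or] at h5
    exact hcon ⟨f, g, hf, hg, hfg, h5.1, h5.2⟩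
  by_cases hm0 : m = 0
  · refine Set.Finite.subset Set.finite_empty ?_
    intro t ht
    obtain ⟨f, g, hf, hg, hfg, h1, h2⟩ := hred t ht
    have h3 := hf.natDegree_mul hg
    rw [hfg, (Ft_deg hQ t).2, ← hm] at h3
    omega
  -- bounds
  obtain ⟨Qc, hQc⟩ : ∃ Qc : ℂ[X], Qc = Q.map (Int.castRingHom ℂ) := ⟨_, rfl⟩
  have hdeg : Qc.natDegree = m := by
    rw [hQc, hQ.natDegree_map, hm]
  obtain ⟨B, hB0, hB⟩ := far hdeg (Nat.pos_of_ne_zero hm0)
  -- one factor has all its roots in the disc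
  have hfac : ∀ t : ℤ, ∀ f g : ℤ[X], f * g = Ft Q t →
      (∀ z : ℂ, (f.map (Int.castRingHom ℂ)).eval z = 0 → ‖z‖ ≤ B + 1) ∨
      (∀ z : ℂ, (g.map (Int.castRingHom ℂ)).eval z = 0 → ‖z‖ ≤ B + 1) := by
    intro t f g hfg
    by_contra hcon
    rw [not_or] at hcon
    obtain ⟨h1, h2⟩ := hcon
    push Not at h1 h2
    obtain ⟨z, hz, hzB⟩ := h1
    obtain ⟨w, hw, hwB⟩ := h2
    have hmul : ∀ v : ℂ, (f.map (Int.castRingHom ℂ)).eval v * (g.map (Int.castRingHom ℂ)).eval v =
        (v - t) * Qc.eval v - 1 := by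
      intro v
      rw [← eval_mul, ← Polynomial.map_mul, hfg, Ft_eval, hQc]
    have e1 : (z - t) * Qc.eval z = 1 := by
      have := hmul z
      rw [hz, zero_mul] at this
      exact (sub_eq_zero.1 this.symm)
    have e2 : (w - t) * Qc.eval w = 1 := by
      have := hmul w
      rw [hw, mul_zero] at this
      exact (sub_eq_zero.1 this.symm)
    have hzw : z = w := unique hB hzB.le hwB.le e1 e2
    subst hzw
    -- a double root
    have hder : Qc.eval z + (z - t) * Qc.derivative.eval z = 0 := by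
      have h3 : (f.map (Int.castRingHom ℂ) * g.map (Int.castRingHom ℂ)) = (X - C (t : ℂ)) * Qc - 1 := by
        rw [← Polynomial.map_mul, hfg, hQc]
        unfold Ft
        simp
      have h4 := congrArg (fun p : ℂ[X] => (derivative p).eval z) h3
      simp only [derivative_mul, derivative_sub, derivative_X, derivative_C, derivative_one,
        eval_add, eval_mul, eval_sub, eval_X, eval_C, eval_one, eval_zero, hz, hw] at h4
      simp at h4
      linear_combination -h4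
    obtain ⟨h5, h6⟩ := hB z (by linarith)
    have hne : Qc.eval z ≠ 0 := by
      intro h
      rw [h, mul_zero] at e1
      exact zero_ne_one e1
    have h7 : Qc.eval z ^ 2 = -Qc.derivative.eval z := by
      have : Qc.eval z ^ 2 + ((z - t) * Qc.eval z) * Qc.derivative.eval z = 0 := by
        linear_combination Qc.eval z * hder
      rw [e1] at this
      linear_combination this
    have h8 : ‖Qc.eval z‖ ^ 2 = ‖Qc.derivative.eval z‖ := by
      rw [← norm_pow, h7, norm_neg]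
    have h9 : (0 : ℝ) ≤ m := Nat.cast_nonneg m
    nlinarith
  -- a monic factor of positive degree divides at most one member
  have huniq : ∀ g : ℤ[X], g.Monic → g.natDegree ≠ 0 → Set.Subsingleton {t : ℤ | g ∣ Ft Q t} := by
    intro g hg hg0 t ht s hs
    have hd : (g.map (Int.castRingHom ℂ)).degree ≠ 0 := by
      rw [degree_eq_natDegree (hg.map _).ne_zero, hg.natDegree_map]
      exact_mod_cast hg0
    obtain ⟨z, hz⟩ := IsAlgClosed.exists_root _ hd
    rw [IsRoot.def] at hz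
    have hroot : ∀ t : ℤ, g ∣ Ft Q t → (z - t) * Qc.eval z = 1 := by
      rintro t ⟨h, hh⟩
      have h1 := Ft_eval Q t z
      rw [hh, Polynomial.map_mul, eval_mul, hz, zero_mul, ← hQc] at h1
      exact sub_eq_zero.1 h1.symm
    have h1 := hroot t ht
    have h2 := hroot s hs
    have hne : Qc.eval z ≠ 0 := by
      intro h
      rw [h, mul_zero] at h1
      exact zero_ne_one h1
    have h3 : (z - t) * Qc.eval z = (z - s) * Qc.eval z := by rw [h1, h2]
    have h4 := mul_right_cancel₀ hne h3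
    have h5 : (t : ℂ) = s := by linear_combination -h4
    exact_mod_cast h5
  have hfin := finite_monic (m + 1) (B + 1)
  refine Set.Finite.subset (Set.Finite.biUnion (hfin.subset
    (Set.inter_subset_left (t := {g : ℤ[X] | g.natDegree ≠ 0})))
    (t := fun g => {t : ℤ | g ∣ Ft Q t}) fun g hg => (huniq g hg.1.1 hg.2).finite) ?_
  intro t ht
  obtain ⟨f, g, hf, hg, hfg, h1, h2⟩ := hred t ht
  have h3 := hf.natDegree_mul hg
  rw [hfg, (Ft_deg hQ t).2, ← hm] at h3
  rcases hfac t f g hfg with h | h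
  · exact Set.mem_biUnion (x := f) ⟨⟨hf, by omega, h⟩, h1⟩ (Dvd.intro _ hfg)
  · exact Set.mem_biUnion (x := g) ⟨⟨hg, by omega, h⟩, h2⟩ (Dvd.intro_left _ hfg)

end Pool.Agent.W327.LF
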